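import Pool.Agent.H92.SF.LUT

/-!
Module UPN: the upper bound, if there are no sections of negative twist. Also `Wk`: the
`κ`-space of the elements of weight `n` and twist `τ` whose coefficients in the chart are
integral over `κ[u 0, u 2]` and which are divisible by a given polynomial.
-/

set_option autoImplicit false

namespace Pool.Agent.H14.SFU

open MvPolynomial
open Pool.Agent.H84.SM (dp cr dt)
open Pool.Agent.H3.SF Pool.Agent.H92.SF

/-- the `κ`-space of the elements of weight `n` and twist `τ` with coefficients (in the chart)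
integral over `κ[u 0, u 2]`, divisible by `R` -/
noncomputable def Wk {k F : Type} [Field k] [Field F] [Algebra k F] (u : Fin 3 → F)
    (dd : Fin 3 → Derivation k F F) (J : MvPolynomial (Fin 3) k) (m : ℕ) (G : F)
    (hE : ∀ c ∈ kap k u, eu u dd c = 0) (R : Q2 F) (n : ℕ) (τ : ℤ) :
    Submodule (kap k u) (Q2 F) where
  carrier := {V | Tw u dd n τ V ∧ (∀ j a, ItK k u (cf u dd J m G V j a)) ∧ R ∣ V}
  add_mem' := by
    rintro a b ⟨⟨ha1, ha2⟩, ha3, ha4⟩ ⟨⟨hb1, hb2⟩, hb3, hb4⟩
    refine ⟨⟨fun j => ⟨fun h => ?_, fun h => ?_⟩, fun j c => ?_⟩, fun j c => ?_, ?_⟩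
    · rw [Polynomial.coeff_add]
      exact ((ha1 j).1 h).add ((hb1 j).1 h)
    · rw [Polynomial.coeff_add, (ha1 j).2 h, (hb1 j).2 h, add_zero]
    · have h1 := ha2 j c
      have h2 := hb2 j c
      unfold Hm at *
      rw [Polynomial.coeff_add, coeff_add, map_add, h1, h2, mul_add]
    · unfold cf
      rw [map_add, Polynomial.coeff_add, coeff_add]
      exact (Bb (kap k u) ![u 0, u 2]).add_mem (ha3 j c) (hb3 j c)
    · exact dvd_add ha4 hb4
  zero_mem' := by
    refine ⟨⟨fun j => ⟨fun h => ?_, fun h => ?_⟩, fun j c => ?_⟩, fun j c => ?_, dvd_zero _⟩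
    · rw [Polynomial.coeff_zero]
      exact isHomogeneous_zero _ _ _
    · simp
    · unfold Hm
      simp
    · unfold cf
      rw [map_zero, Polynomial.coeff_zero, coeff_zero]
      exact (Bb (kap k u) ![u 0, u 2]).zero_mem
  smul_mem' := by
    rintro r a ⟨⟨ha1, ha2⟩, ha3, ha4⟩
    have hr : r • a = Polynomial.C (C (algebraMap (kap k u) F r)) * a := by
      rw [Algebra.smul_def]
      rfl
    have hc : ∀ j c, ((r • a).coeff j).coeff c = (r : F) * (a.coeff j).coeff c := by
      intro j c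
      rw [hr, Polynomial.coeff_C_mul, coeff_C_mul]
      rfl
    refine ⟨⟨fun j => ⟨fun h => ?_, fun h => ?_⟩, fun j c => ?_⟩, fun j c => ?_, ?_⟩
    · rw [hr, Polynomial.coeff_C_mul]
      have := (isHomogeneous_C (Fin 2) (algebraMap (kap k u) F r)).mul ((ha1 j).1 h)
      rwa [zero_add] at this
    · rw [hr, Polynomial.coeff_C_mul, (ha1 j).2 h, mul_zero]
    · have h1 := ha2 j c
      unfold Hm at *
      rw [hc, Derivation.leibniz, hE _ r.2, h1, smul_zero, add_zero, smul_eq_mul]
      ring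
    · have h2 : Ps u dd J m G (r • a) =
          Polynomial.C (C (algebraMap (kap k u) F r)) * Ps u dd J m G a := by
        rw [hr, map_mul]
        congr 1
        simp [Ps, Psi, ev2, cc]
      unfold cf
      rw [h2, Polynomial.coeff_C_mul, coeff_C_mul, ← Algebra.smul_def]
      exact (Bb (kap k u) ![u 0, u 2]).smul_mem (ha3 j c) r
    · rw [hr]
      exact ha4.mul_left _

theorem mem_Wk {k F : Type} [Field k] [Field F] [Algebra k F] {u : Fin 3 → F}
    {dd : Fin 3 → Derivation k F F} {J : MvPolynomial (Fin 3) k} {m : ℕ} {G : F}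
    {hE : ∀ c ∈ kap k u, eu u dd c = 0} {R : Q2 F} {n : ℕ} {τ : ℤ} {V : Q2 F} :
    V ∈ Wk u dd J m G hE R n τ ↔
      Tw u dd n τ V ∧ (∀ j a, ItK k u (cf u dd J m G V j a)) ∧ R ∣ V := Iff.rfl

theorem SS_mono (δ j0 m w jP g n i : ℕ) {τ τ' : ℤ} (h : τ ≤ τ') :
    SS δ j0 m w jP g n i τ ≤ SS δ j0 m w jP g n i τ' := by
  unfold SS
  split_ifs with h0
  · exact le_rfl
  · refine Finset.sum_le_sum fun s _ => Finset.sum_le_sum fun b _ => ?_
    refine max_le_max le_rfl ?_
    have h1 : (0 : ℤ) ≤ δ := Int.natCast_nonneg δ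
    have h2 := mul_le_mul_of_nonneg_left h h1
    linarith

theorem tw_one {k F : Type} [Field k] [Field F] [Algebra k F] (u : Fin 3 → F)
    (dd : Fin 3 → Derivation k F F) : Tw u dd 0 0 1 := by
  classical
  refine ⟨fun j => ⟨fun h => ?_, fun h => ?_⟩, fun j a => ?_⟩
  · have hj : j = 0 := by omega
    rw [hj, Polynomial.coeff_one_zero]
    exact isHomogeneous_one _ _
  · rw [Polynomial.coeff_one, if_neg (by omega)]
  · unfold Hm
    rw [Polynomial.coeff_one]
    split_ifs with h
    · rw [coeff_one]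
      split_ifs with h1
      · rw [Derivation.map_one_eq_zero, h]
        push_cast
        ring
      · rw [map_zero, mul_zero]
    · rw [coeff_zero, map_zero, mul_zero]

theorem pf_UPN (hFRK : T_FRK) (_hFIN : T_FIN) (hUON : T_UON) (hUTH : T_UTH) (hLMG : T_LMG) :
    T_UPN := by
  classical
  intro k F _ _ _ _ _ u dd δ j0 c0 J m G hG n hneg
  obtain ⟨-, -, hE, hItg, -, -⟩ := hFRK k F u dd δ j0 c0 J m G hG.toBs
  have hcf : cf u dd J m G 1 (1 : Q2 F).natDegree 0 ≠ 0 := by
    unfold cf
    rw [map_one, Polynomial.natDegree_one, Polynomial.coeff_one_zero, coeff_zero_one]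
    exact one_ne_zero
  have hW : ∀ τ : ℤ, τ ≤ 0 → Module.Finite (kap k u) (Wk u dd J m G hE 1 n τ) ∧
      (Module.finrank (kap k u) (Wk u dd J m G hE 1 n τ) : ℤ) ≤ SS δ j0 m 0 0 0 n 0 0 := by
    intro τ hτ
    have h := hUTH k F u dd δ j0 c0 J m G hG 0 0 1 one_ne_zero (tw_one u dd) 0 hcf 0 0 ?_ n τ
      (Wk u dd J m G hE 1 n τ) ?_
    · rw [Polynomial.natDegree_one] at h
      exact ⟨h.1, h.2.trans (SS_mono _ _ _ _ _ _ _ _ hτ)⟩
    · intro e W hWx
      have h1 := hLMG k F u dd δ j0 c0 J m G hG.toBs 1 0 1 1 (isHomogeneous_one _ _)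
        (by
          rw [Finsupp.single_zero, coeff_zero_one]
          exact one_ne_zero) isRelPrime_one_right
        (by
          rw [map_one, map_one, mul_one]
          rfl) 0 e W ?_
      · exact h1
      · intro x hx
        obtain ⟨h2, h3, -⟩ := hWx x hx
        refine ⟨h2, h3, ?_⟩
        rw [pow_zero, mul_one]
        exact h3
    · intro V hV
      rw [pow_zero]
      exact mem_Wk.1 hV
  have hchain : ∀ t : ℕ, (Module.finrank k (E u dd J m G n 0) : ℤ) ≤
      Module.finrank k (E u dd J m G n (-(t : ℤ))) + t * SS δ j0 m 0 0 0 n 0 0 := by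
    intro t
    induction t with
    | zero =>
      have h0 : (-((0 : ℕ) : ℤ)) = 0 := by norm_num
      rw [h0]
      push_cast
      linarith
    | succ t ih =>
      obtain ⟨h1, h2⟩ := hW (-(t : ℤ)) (by omega)
      have h3 := hUON k F u dd δ j0 c0 J m G hG.toBs n (-(t : ℤ))
        (Wk u dd J m G hE 1 n (-(t : ℤ))) h1 ?_
      · have h4 : (-(t : ℤ)) - 1 = -((t + 1 : ℕ) : ℤ) := by
          push_cast
          ring
        rw [h4] at h3
        have h5 : (Module.finrank k (E u dd J m G n (-(t : ℤ))) : ℤ) ≤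
            Module.finrank k (E u dd J m G n (-((t + 1 : ℕ) : ℤ))) +
            Module.finrank (kap k u) (Wk u dd J m G hE 1 n (-(t : ℤ))) := by
          exact_mod_cast h3
        have h6 : ((t + 1 : ℕ) : ℤ) * SS δ j0 m 0 0 0 n 0 0 =
            t * SS δ j0 m 0 0 0 n 0 0 + SS δ j0 m 0 0 0 n 0 0 := by
          push_cast
          ring
        rw [h6]
        linarith
      · intro V hV
        exact ⟨hV.1, fun j a => hItg _ (hV.2 j a), one_dvd _⟩
  have h1 := hchain (2 * n * j0 + 1)
  have h2 : E u dd J m G n (-((2 * n * j0 + 1 : ℕ) : ℤ)) = ⊥ := by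
    rw [Submodule.eq_bot_iff]
    exact hneg
  rw [h2, finrank_bot] at h1
  push_cast at h1
  linarith

end Pool.Agent.H14.SFU
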