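import Pool.Agent.H92.SF.LUT
import Pool.Agent.H62.HIL.Dim2

/-! Module HMR: homogeneous integral relation. -/

set_option autoImplicit false

namespace Pool.Agent.H14.SFU

open MvPolynomial
open Pool.Agent.H84.SM (dp cr dt)
open Pool.Agent.H3.SF Pool.Agent.H92.SF

theorem pf_HMR : T_HMR := by
  intro k F ι _ _ _ _ v D d s z hd hv hz hitg
  have hcF : CharZero F := charZero_of_injective_algebraMap (algebraMap k F).injective
  have hd0 : (d : F) ≠ 0 := by
    have h : d ≠ 0 := by omega
    exact_mod_cast h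
  set D' : Derivation k F F := (d : F)⁻¹ • D with hD'
  have hv' : ∀ i, Hm k D' 1 (v i) := by
    intro i
    change (d : F)⁻¹ * D (v i) = ((1 : ℤ) : F) * v i
    rw [hv]
    push_cast
    field_simp
  have hz' : Hm k D' (s : ℤ) z := by
    change (d : F)⁻¹ * D z = ((s : ℤ) : F) * z
    rw [hz]
    push_cast
    field_simp
  obtain ⟨n, c, hc, hrel⟩ := Pool.Agent.H62.HIL.hom_relation hv' (t := s) (a := z) ⟨hitg, hz'⟩
  refine ⟨n, c, ?_, ?_, hrel⟩
  · by_contra hn
    have hn0 : n = 0 := by omega
    subst hn0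
    simp at hrel
  · intro r hr
    have e1 : ((n : ℤ) - r) * s = ((s * (n - r) : ℕ) : ℤ) := by
      push_cast [Nat.cast_sub hr.le]
      ring
    have h1 := (hc r hr).1 (by rw [e1]; exact Int.natCast_nonneg _)
    rw [e1, Int.toNat_natCast] at h1
    exact h1

end Pool.Agent.H14.SFU
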