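import Pool.Agent.H92.SF.LUT
import Pool.Agent.H92.SF.PQV
import Pool.Agent.H19.SRF.TWM

/-! Module QSC: the sections `q` and `J s`. -/

set_option autoImplicit false

namespace Pool.Agent.H14.SFU

open MvPolynomial
open Pool.Agent.H84.SM (dp cr dt)
open Pool.Agent.H3.SF Pool.Agent.H92.SF

section

variable {k F : Type} [Field k] [Field F] [Algebra k F] {u : Fin 3 → F}
  {dd : Fin 3 → Derivation k F F}

theorem tw_add {n : ℕ} {τ : ℤ} {V W : Q2 F} (hV : Tw u dd n τ V) (hW : Tw u dd n τ W) :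
    Tw u dd n τ (V + W) := by
  refine ⟨fun j => ⟨fun h => ?_, fun h => ?_⟩, fun j c => ?_⟩
  · rw [Polynomial.coeff_add]
    exact ((hV.1 j).1 h).add ((hW.1 j).1 h)
  · rw [Polynomial.coeff_add, (hV.1 j).2 h, (hW.1 j).2 h, add_zero]
  · have h1 := hV.2 j c
    have h2 := hW.2 j c
    unfold Hm at *
    rw [Polynomial.coeff_add, coeff_add, map_add, h1, h2, mul_add]

theorem tw_neg {n : ℕ} {τ : ℤ} {V : Q2 F} (hV : Tw u dd n τ V) : Tw u dd n τ (-V) := by
  refine ⟨fun j => ⟨fun h => ?_, fun h => ?_⟩, fun j c => ?_⟩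
  · rw [Polynomial.coeff_neg]
    exact ((hV.1 j).1 h).neg
  · rw [Polynomial.coeff_neg, (hV.1 j).2 h, neg_zero]
  · have h1 := hV.2 j c
    unfold Hm at *
    rw [Polynomial.coeff_neg, coeff_neg, map_neg, h1, mul_neg]

theorem tw_sub {n : ℕ} {τ : ℤ} {V W : Q2 F} (hV : Tw u dd n τ V) (hW : Tw u dd n τ W) :
    Tw u dd n τ (V - W) := by
  rw [sub_eq_add_neg]
  exact tw_add hV (tw_neg hW)

theorem tw_zero (n : ℕ) (τ : ℤ) : Tw u dd n τ 0 := by
  refine ⟨fun j => ⟨fun h => ?_, fun h => ?_⟩, fun j c => ?_⟩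
  · rw [Polynomial.coeff_zero]
    exact isHomogeneous_zero _ _ _
  · rw [Polynomial.coeff_zero]
  · unfold Hm
    rw [Polynomial.coeff_zero, coeff_zero, map_zero, mul_zero]

theorem tw_sum {ι : Type} {n : ℕ} {τ : ℤ} (s : Finset ι) (f : ι → Q2 F)
    (h : ∀ i ∈ s, Tw u dd n τ (f i)) : Tw u dd n τ (∑ i ∈ s, f i) := by
  classical
  induction s using Finset.induction_on with
  | empty =>
    rw [Finset.sum_empty]
    exact tw_zero n τ
  | insert a s ha ih =>
    rw [Finset.sum_insert ha]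
    exact tw_add (h a (Finset.mem_insert_self _ _))
      (ih fun i hi => h i (Finset.mem_insert_of_mem hi))

theorem tw_mul {n n' n'' : ℕ} {τ τ' τ'' : ℤ} {V V' : Q2 F} (hV : Tw u dd n τ V)
    (hV' : Tw u dd n' τ' V') (hn : n + n' = n'') (hτ : τ + τ' = τ'') :
    Tw u dd n'' τ'' (V * V') := by
  have h := (Pool.Agent.H19.SRF.pf_TWM k F u dd).1 n n' τ τ' V V' hV hV'
  rw [hn, hτ] at h
  exact h

theorem tw_cq {t : ℤ} {c : F} (hc : Hm k (eu u dd) t c) : Tw u dd 0 t (cq c) :=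
  (Pool.Agent.H19.SRF.pf_TWM k F u dd).2.2.2.1 t c hc

theorem tw_var : Tw u dd 3 3 (Polynomial.X : Q2 F) := (Pool.Agent.H19.SRF.pf_TWM k F u dd).2.2.2.2

theorem tw_CX (i : Fin 2) : Tw u dd 1 2 (Polynomial.C (X i) : Q2 F) := by
  classical
  refine ⟨fun j => ⟨fun h => ?_, fun h => ?_⟩, fun j c => ?_⟩
  · have hj : j = 0 := by omega
    rw [hj, Polynomial.coeff_C_zero]
    exact isHomogeneous_X _ _
  · rw [Polynomial.coeff_C, if_neg (by omega)]
  · unfold Hm
    rw [Polynomial.coeff_C]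
    split_ifs with h
    · rw [coeff_X]
      split_ifs with h1
      · rw [Derivation.map_one_eq_zero, h]
        push_cast
        ring
      · rw [map_zero, mul_zero]
    · rw [coeff_zero, map_zero, mul_zero]

theorem alg_js {A : Type} [CommRing A] (s g : A) (H : Fin 3 → Fin 3 → A) (γ : Fin 3 → A)
    (z r : A) : s * (g * z - s ^ 6 * hq H γ γ * r) =
      (s * g) * z - (s * s * s * ∑ i, ∑ j, (s ^ 2 * H i j) * (s * γ i) * (s * γ j)) * r := by
  have h : ∑ i, ∑ j, (s ^ 2 * H i j) * (s * γ i) * (s * γ j) = s ^ 4 * hq H γ γ := by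
    unfold hq
    rw [Finset.mul_sum]
    refine Finset.sum_congr rfl fun i _ => ?_
    rw [Finset.mul_sum]
    exact Finset.sum_congr rfl fun j _ => by ring
  rw [h]
  ring

/-- integral coefficients in the chart -/
def IC (k : Type) {F : Type} [Field k] [Field F] [Algebra k F] (u : Fin 3 → F) (W : C3 F) : Prop :=
  ∀ (j : ℕ) (a : Fin 3 →₀ ℕ), Itg k u ((W.coeff j).coeff a)

theorem IC.add {V W : C3 F} (hV : IC k u V) (hW : IC k u W) : IC k u (V + W) := by
  intro j a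
  rw [Polynomial.coeff_add, coeff_add]
  exact (Bb k u).add_mem (hV j a) (hW j a)

theorem IC.sub {V W : C3 F} (hV : IC k u V) (hW : IC k u W) : IC k u (V - W) := by
  intro j a
  rw [Polynomial.coeff_sub, coeff_sub]
  exact (Bb k u).sub_mem (hV j a) (hW j a)

theorem IC.mul {V W : C3 F} (hV : IC k u V) (hW : IC k u W) : IC k u (V * W) := by
  classical
  intro j a
  rw [Polynomial.coeff_mul, coeff_sum]
  refine (Bb k u).sum_mem fun x _ => ?_
  rw [coeff_mul]
  exact (Bb k u).sum_mem fun y _ => (Bb k u).mul_mem (hV _ _) (hW _ _)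

theorem IC.sum {ι : Type} (s : Finset ι) (f : ι → C3 F) (h : ∀ i ∈ s, IC k u (f i)) :
    IC k u (∑ i ∈ s, f i) := by
  intro j a
  rw [Polynomial.finsetSum_coeff, coeff_sum]
  exact (Bb k u).sum_mem fun i hi => h i hi j a

theorem IC.cc {c : F} (hc : Itg k u c) : IC k u (cc c) := by
  classical
  intro j a
  change Itg k u (((Polynomial.C (C c) : C3 F).coeff j).coeff a)
  rw [Polynomial.coeff_C]
  split_ifs with h
  · rw [coeff_C]
    split_ifs with h1
    · exact hc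
    · exact (Bb k u).zero_mem
  · rw [coeff_zero]
    exact (Bb k u).zero_mem

theorem IC.rv (i : Fin 3) : IC k u (rv i : C3 F) := by
  classical
  intro j a
  unfold Pool.Agent.H92.SF.rv
  rw [Polynomial.coeff_C]
  split_ifs with h
  · rw [coeff_X]
    split_ifs with h1
    · exact (Bb k u).one_mem
    · exact (Bb k u).zero_mem
  · rw [coeff_zero]
    exact (Bb k u).zero_mem

theorem IC.zv : IC k u (zv : C3 F) := by
  classical
  intro j a
  unfold Pool.Agent.H92.SF.zv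
  rw [Polynomial.coeff_X]
  split_ifs with h
  · rw [coeff_one]
    split_ifs with h1
    · exact (Bb k u).one_mem
    · exact (Bb k u).zero_mem
  · rw [coeff_zero]
    exact (Bb k u).zero_mem

/-- the coordinates `p` in `F[p 1, p 2]` -/
noncomputable def pl (x : Fin 3 → F) (i0 : F) : Fin 3 → MvPolynomial (Fin 2) F :=
  ![- (C (i0 * x 1) * X 0 + C (i0 * x 2) * X 1), X 0, X 1]

omit [Field k] [Algebra k F] in
theorem pv_eq (x : Fin 3 → F) (i0 : F) (i : Fin 3) : pv x i0 i = Polynomial.C (pl x i0 i) := by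
  fin_cases i
  · simp [pv, pl]
  · simp [pv, pl]
  · simp [pv, pl]

theorem alg_q {A : Type} [CommRing A] (a b c p q : A) :
    -(Polynomial.C a) * (Polynomial.C b * Polynomial.C p - Polynomial.C c * Polynomial.C q) =
      Polynomial.C (-(a * (b * p - c * q))) := by
  simp only [map_neg, map_mul, map_sub]
  ring

theorem qv_eq (m : ℕ) (G : F) (i : Fin 3) :
    qv u (grd dd G) (u 0)⁻¹ ((m : F) * G)⁻¹ i = Polynomial.C (qf u dd m G i) := by
  have h1 : qv u (grd dd G) (u 0)⁻¹ ((m : F) * G)⁻¹ i = -(cq ((m : F) * G)⁻¹) *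
      (cq (dd (i + 1) G) * pv u (u 0)⁻¹ (i + 2) - cq (dd (i + 2) G) * pv u (u 0)⁻¹ (i + 1)) := rfl
  have h2 : qf u dd m G i = -(C ((m : F) * G)⁻¹ *
      (C (dd (i + 1) G) * pl u (u 0)⁻¹ (i + 2) - C (dd (i + 2) G) * pl u (u 0)⁻¹ (i + 1))) := rfl
  rw [h1, h2, pv_eq, pv_eq]
  exact alg_q _ _ _ _ _

theorem alg_lin {A : Type} [CommRing A] (a b c S P : A) :
    Polynomial.C a * (Polynomial.C b * (Polynomial.C c * Polynomial.X +
      Polynomial.C S * Polynomial.C P)) =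
    Polynomial.C (a * c * b) * Polynomial.X + Polynomial.C (a * b * (S * P)) := by
  simp only [map_mul]
  ring

theorem hq_eq (m : ℕ) (G : F) : hq (fun i j => cq (hes dd G i j))
    (qv u (grd dd G) (u 0)⁻¹ ((m : F) * G)⁻¹) (qv u (grd dd G) (u 0)⁻¹ ((m : F) * G)⁻¹) =
    Polynomial.C (hq (fun i j => C (hes dd G i j)) (qf u dd m G) (qf u dd m G)) := by
  unfold hq
  rw [map_sum]
  refine Finset.sum_congr rfl fun i _ => ?_
  rw [map_sum]
  refine Finset.sum_congr rfl fun j _ => ?_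
  rw [qv_eq, qv_eq, map_mul, map_mul]
  rfl

theorem js_eq (J : MvPolynomial (Fin 3) k) (m : ℕ) (G : F) (l : Fin 3) :
    js u dd J m G l =
      Polynomial.C (C (aeval u J * dd l G * ((m : F) * G)⁻¹)) * Polynomial.X +
        Polynomial.C (C (aeval u J) * C ((m : F) * G)⁻¹ *
          (hq (fun i j => C (hes dd G i j)) (qf u dd m G) (qf u dd m G) * pl u (u 0)⁻¹ l)) := by
  have h1 : js u dd J m G l = Polynomial.C (C (aeval u J)) * (Polynomial.C (C ((m : F) * G)⁻¹) *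
      (Polynomial.C (C (dd l G)) * Polynomial.X + hq (fun i j => cq (hes dd G i j))
        (qv u (grd dd G) (u 0)⁻¹ ((m : F) * G)⁻¹) (qv u (grd dd G) (u 0)⁻¹ ((m : F) * G)⁻¹) *
        pv u (u 0)⁻¹ l)) := rfl
  have h2 : (C (aeval u J * dd l G * ((m : F) * G)⁻¹) : MvPolynomial (Fin 2) F) =
      C (aeval u J) * C (dd l G) * C ((m : F) * G)⁻¹ := by
    rw [C_mul, C_mul]
  rw [h1, hq_eq, pv_eq, alg_lin, h2]

theorem tw_pv (hu0 : u 0 ≠ 0) (hE : ∀ i, Hm k (eu u dd) 1 (u i)) (i : Fin 3) :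
    Tw u dd 1 2 (pv u (u 0)⁻¹ i) := by
  have h0 : ∀ j, Hm k (eu u dd) 0 ((u 0)⁻¹ * u j) := by
    intro j
    have h1 := hE 0
    have h2 := hE j
    unfold Hm at *
    rw [Derivation.leibniz, Derivation.leibniz_inv, h1, h2, smul_eq_mul, smul_eq_mul, smul_eq_mul]
    push_cast
    field_simp
    ring
  rw [pv_eq]
  fin_cases i
  · have h1 : (Polynomial.C (pl u (u 0)⁻¹ 0) : Q2 F) =
        -(cq ((u 0)⁻¹ * u 1) * Polynomial.C (X 0) + cq ((u 0)⁻¹ * u 2) * Polynomial.C (X 1)) := by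
      simp [pl, cq]
    change Tw u dd 1 2 (Polynomial.C (pl u (u 0)⁻¹ 0) : Q2 F)
    rw [h1]
    exact tw_neg (tw_add (tw_mul (tw_cq (h0 1)) (tw_CX 0) rfl rfl)
      (tw_mul (tw_cq (h0 2)) (tw_CX 1) rfl rfl))
  · exact tw_CX 0
  · exact tw_CX 1

end

theorem pf_QSC (hDAT : T_DAT) : T_QSC := by
  classical
  intro k F _ _ _ _ _ u dd δ j0 c0 J m G hB l
  obtain ⟨hdat, hu0, hJ0, hmG, hE1, hJh, hg, hH, hIg, hIH⟩ := hDAT k F u dd δ j0 c0 J m G hB
  obtain ⟨h1, h2, h3⟩ := Pool.Agent.H92.SF.pf_PQV F m u (grd dd G) G (hes dd G) (aeval u J)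
    (u 0)⁻¹ ((m : F) * G)⁻¹ hdat (inv_mul_cancel₀ (hu0 0)) (inv_mul_cancel₀ hmG)
  have hJI : Itg k u (aeval u J) := RingHom.isIntegralElem_map _
  have hi1 : Hm k (eu u dd) (-(m : ℤ)) ((m : F) * G)⁻¹ := by
    have h4 := hB.hom
    unfold Hm at *
    rw [Derivation.leibniz_inv, Derivation.leibniz, Derivation.map_natCast, h4, smul_zero,
      add_zero, smul_eq_mul, smul_eq_mul]
    push_cast
    field_simp
  have htp : ∀ i, Tw u dd 1 2 (pv u (u 0)⁻¹ i) := tw_pv (hu0 0) hE1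
  have htq : ∀ i, Tw u dd 1 1 (qv u (grd dd G) (u 0)⁻¹ ((m : F) * G)⁻¹ i) := by
    intro i
    unfold qv cr
    refine tw_mul (n := 0) (τ := -(m : ℤ)) (n' := 1) (τ' := (m : ℤ) + 1) (tw_neg (tw_cq hi1))
      (tw_sub ?_ ?_) rfl (by ring)
    · exact tw_mul (tw_cq (hg _)) (htp _) rfl (by ring)
    · exact tw_mul (tw_cq (hg _)) (htp _) rfl (by ring)
  have hgx : ∀ i, IC k u (cc (aeval u J) * gxr (grd dd G) i) := by
    intro i
    have h4 : cc (aeval u J) * gxr (grd dd G) i =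
        cc (aeval u J * grd dd G (i + 1)) * rv (i + 2) -
          cc (aeval u J * grd dd G (i + 2)) * rv (i + 1) := by
      unfold gxr cr
      rw [map_mul, map_mul]
      ring
    rw [h4]
    exact (IC.cc (hIg _)).mul (IC.rv _) |>.sub ((IC.cc (hIg _)).mul (IC.rv _))
  refine ⟨?_, ?_, ?_⟩
  · rw [← qv_eq]
    refine ⟨htq l, ?_⟩
    change IC k u (Psi m u (grd dd G) G (hes dd G) (aeval u J) _)
    rw [h2]
    have h4 : cc (aeval u J) ^ 2 * gxr (grd dd G) l =
        cc (aeval u J) * (cc (aeval u J) * gxr (grd dd G) l) := by ring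
    rw [h4]
    exact (IC.cc hJI).mul (hgx l)
  · refine ⟨?_, ?_⟩
    · unfold js sl
      refine tw_mul (n' := 3) (τ' := 2) (tw_cq hJh) ?_ rfl (by ring)
      refine tw_mul (n' := 3) (τ' := (m : ℤ) + 2) (tw_cq hi1) (tw_add ?_ ?_) rfl (by ring)
      · exact tw_mul (tw_cq (hg _)) tw_var rfl (by ring)
      · refine tw_mul (n := 2) (τ := (m : ℤ)) ?_ (htp l) rfl rfl
        unfold hq
        refine tw_sum _ _ fun i _ => tw_sum _ _ fun j _ => ?_
        refine tw_mul (n := 1) (τ := (m : ℤ) - 1) ?_ (htq j) rfl (by ring)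
        exact tw_mul (tw_cq (hH i j)) (htq i) rfl (by ring)
    · change IC k u (Psi m u (grd dd G) G (hes dd G) (aeval u J) _)
      unfold js
      rw [map_mul, h3, Psi_cq]
      rw [alg_js, ← map_mul]
      have h4 : ∀ i j, IC k u (cc (aeval u J) ^ 2 * cc (hes dd G i j)) := by
        intro i j
        rw [← map_pow, ← map_mul]
        exact IC.cc (hIH i j)
      refine ((IC.cc (hIg l)).mul IC.zv).sub (IC.mul (IC.mul ?_ ?_) (IC.rv l))
      · exact ((IC.cc hJI).mul (IC.cc hJI)).mul (IC.cc hJI)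
      · exact IC.sum _ _ fun i _ => IC.sum _ _ fun j _ =>
          ((h4 i j).mul (hgx i)).mul (hgx j)
  · rw [js_eq]
    refine ⟨Polynomial.natDegree_linear_le, ?_⟩
    rw [Polynomial.coeff_add, Polynomial.coeff_C_mul, Polynomial.coeff_X_one, mul_one,
      Polynomial.coeff_C, if_neg one_ne_zero, add_zero]

end Pool.Agent.H14.SFU
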